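import Pool.Agent.helper44.EX.Spec

/-!
# Project ex: module UNF (uniformisation of the branched pull-back)
-/

set_option autoImplicit false

open Complex Metric Set Filter Topology MeasureTheory Pool.Agent.helper98.ILF

noncomputable section

namespace EX

theorem UNF (hMOB : MOB_stmt) (hKO0 : V3.KO0_stmt) : UNF_stmt := by
  intro n c g z₀ y hn hg hginj hz₀ hgz hy hy0
  obtain ⟨-, hτd, hτm, hτi, hτ0, hτz, -, -, -⟩ := hMOB z₀ hz₀
  have hn0 : n ≠ 0 := by omega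
  obtain ⟨h, hh⟩ : ∃ h : ℂ → ℂ, ∀ u, h u = g (tau z₀ u) - c := ⟨_, fun _ => rfl⟩
  have hhf : h = fun u => g (tau z₀ u) - c := funext hh
  have hd : DifferentiableOn ℂ h (ball 0 1) := by
    rw [hhf]
    exact (hg.comp hτd hτm).sub_const c
  have hinj : InjOn h (ball 0 1) := by
    intro a ha b hb hab
    rw [hh, hh] at hab
    exact hτi ha hb (hginj (hτm ha) (hτm hb) (sub_left_injective hab))
  have h00 : h 0 = 0 := by rw [hh, hτ0, hgz, sub_self]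
  have hmem0 : (0 : ℂ) ∈ ball (0 : ℂ) 1 := mem_ball_self one_pos
  have hder : deriv h 0 ≠ 0 := hKO0 h (ball 0 1) isOpen_ball hd hinj 0 hmem0
  obtain ⟨e, he⟩ : ∃ e, e = dslope h 0 := ⟨_, rfl⟩
  have hed : DifferentiableOn ℂ e (ball 0 1) := by
    rw [he]
    exact (Complex.differentiableOn_dslope (ball_mem_nhds 0 one_pos)).2 hd
  have hue : ∀ u, h u = u * e u := by
    intro u
    have h1 := sub_smul_dslope h 0 u
    rw [sub_zero, h00, sub_zero, smul_eq_mul, ← he] at h1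
    exact h1.symm
  have he0 : ∀ u ∈ ball (0 : ℂ) 1, e u ≠ 0 := by
    intro u hu
    by_cases h1 : u = 0
    · rw [h1, he, dslope_same]
      exact hder
    · intro h2
      have h3 := hue u
      rw [h2, mul_zero, ← h00] at h3
      exact h1 (hinj hu hmem0 h3)
  obtain ⟨v, hv⟩ := IsAlgClosed.exists_pow_nat_eq (e 0) (by omega : 0 < n)
  obtain ⟨E, hEd, -, hE⟩ := exists_lift_pow hn0 (u := v) one_pos hed he0 hv
  have hpow : ∀ u ∈ ball (0 : ℂ) 1, u ^ n ∈ ball (0 : ℂ) 1 := by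
    intro u hu
    rw [mem_ball, dist_zero_right] at hu ⊢
    rw [norm_pow]
    exact pow_lt_one₀ (norm_nonneg u) hu hn0
  have hψn : ∀ u ∈ ball (0 : ℂ) 1, (u * E (u ^ n)) ^ n = h (u ^ n) := by
    intro u hu
    rw [mul_pow, hE _ (hpow u hu), hue (u ^ n)]
  obtain ⟨w₀, hw₀⟩ := IsAlgClosed.exists_pow_nat_eq (-z₀) (by omega : 0 < n)
  have hw₀m : w₀ ∈ ball (0 : ℂ) 1 := by
    rw [mem_ball, dist_zero_right] at hz₀ ⊢
    by_contra h1
    have h2 : (1 : ℝ) ≤ ‖w₀‖ := not_lt.1 h1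
    have h3 : ‖w₀‖ ^ n = ‖z₀‖ := by rw [← norm_pow, hw₀, norm_neg]
    have h4 : (1 : ℝ) ≤ ‖w₀‖ ^ n := one_le_pow₀ h2
    linarith
  have hψw₀ : (w₀ * E (w₀ ^ n)) ^ n = y ^ n := by
    rw [hψn w₀ hw₀m, hw₀, hh, hτz, ← hy]
    simp only [ff]
    ring
  have hne : w₀ * E (w₀ ^ n) ≠ 0 := by
    intro h1
    rw [h1, zero_pow hn0] at hψw₀
    exact hy0 (pow_eq_zero_iff hn0 |>.1 hψw₀.symm)
  obtain ⟨ζ, hζ⟩ : ∃ ζ, ζ = y / (w₀ * E (w₀ ^ n)) := ⟨_, rfl⟩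
  have hζn : ζ ^ n = 1 := by
    rw [hζ, div_pow, hψw₀, div_self (pow_ne_zero n hy0)]
  have hζ1 : ‖ζ‖ = 1 := Complex.norm_eq_one_of_pow_eq_one hζn hn0
  have hwn : (ζ * w₀) ^ n = -z₀ := by rw [mul_pow, hζn, one_mul, hw₀]
  refine ⟨fun u => u * E (u ^ n), ζ * w₀, ?_, by simp, ?_, hwn, ?_, ?_⟩
  · exact differentiableOn_id.mul (hEd.comp (differentiableOn_id.pow n) hpow)
  · rw [mem_ball, dist_zero_right, norm_mul, hζ1, one_mul]
    simpa using hw₀m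
  · show ζ * w₀ * E ((ζ * w₀) ^ n) = y
    rw [hwn, ← hw₀, mul_assoc, hζ, div_mul_cancel₀ _ hne]
  · intro u hu
    show (u * E (u ^ n)) ^ n + c = g (tau z₀ (u ^ n))
    rw [hψn u hu, hh]
    ring

end EX
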